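import Pool.Agent.H30.EE.TargetsH
import Pool.Agent.H64.SC.Api
import Pool.Agent.H27.LV.Curve

/-!
# HG: heights
-/

set_option autoImplicit false

open MvPolynomial SC Pool.Agent.H27.LV Pool.Agent.H17.VG Pool.Agent.H30.EE

namespace Pool.Agent.H93.EE

theorem pf_HG (hMO : T_MO) : T_HG := by
  intro k K _ _ _ _ _ _ htr
  have hpf := pfm k K htr
  -- finiteness
  have hfin : ∀ (κ : Type) [Finite κ] (P : κ → K), {v : DV k K | mo v P ≠ 0}.Finite := by
    intro κ _ P
    have hsub : {v : DV k K | mo v P ≠ 0} ⊆ ⋃ i, {v : DV k K | v.ord (P i) ≠ 0} := by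
      intro v hv
      simp only [Set.mem_iUnion, Set.mem_ofPred_eq] at hv ⊢
      by_contra hcon
      push Not at hcon
      apply hv
      by_cases hP : P = 0
      · exact (hMO k K v κ P).1 hP
      · obtain ⟨_, ⟨i, _, h2⟩, _⟩ := (hMO k K v κ P).2 hP
        rw [← h2, hcon i]
    exact (Set.finite_iUnion fun i => (hpf (P i)).1).subset hsub
  have hsup : ∀ (κ : Type) [Finite κ] (P : κ → K),
      (Function.support fun v : DV k K => mo v P).Finite := fun κ _ P => hfin κ P
  have hso : ∀ f : K, (Function.support fun v : DV k K => v.ord f).Finite := fun f => (hpf f).1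
  -- the formula with `deg`
  have hdeg : ∀ (κ : Type) [Fintype κ] (P : κ → K) (i : κ), P i ≠ 0 →
      hgt k P = deg k fun j => P j / P i := by
    intro κ _ P i hi
    have hP : P ≠ 0 := fun h => hi (by rw [h]; rfl)
    have hpo : ∀ v : DV k K, ((poleOrder v fun j => P j / P i : ℕ) : ℤ) = v.ord (P i) - mo v P := by
      intro v
      obtain ⟨h1, ⟨l, hl, h2⟩, _⟩ := (hMO k K v κ P).2 hP
      have h3 : mo v P ≤ v.ord (P i) := (h1 i).resolve_left hi
      obtain ⟨m, hm⟩ : ∃ m : ℕ, (m : ℤ) = v.ord (P i) - mo v P :=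
        ⟨(v.ord (P i) - mo v P).toNat, Int.toNat_of_nonneg (by omega)⟩
      rw [← hm]
      congr 1
      unfold poleOrder
      apply le_antisymm
      · refine Finset.sup_le fun j _ => ?_
        change (-(v.ord (P j / P i))).toNat ≤ m
        by_cases hj : P j = 0
        · rw [hj, zero_div, v.ord_zero]
          simp
        · rw [v.ord_div hj hi]
          have h4 := (h1 j).resolve_left hj
          omega
      · have h5 : (-(v.ord (P l / P i))).toNat ≤
            Finset.univ.sup fun j => (-(v.ord (P j / P i))).toNat :=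
          Finset.le_sup (f := fun j => (-(v.ord (P j / P i))).toNat) (Finset.mem_univ l)
        refine le_trans ?_ h5
        rw [v.ord_div hl hi, h2]
        omega
    have hfp : (Function.support fun v : DV k K => poleOrder v fun j => P j / P i).Finite :=
      pfi k K htr κ _
    have h6 : ((deg k fun j => P j / P i : ℕ) : ℤ) =
        ∑ᶠ v : DV k K, ((poleOrder v fun j => P j / P i : ℕ) : ℤ) := by
      unfold Pool.Agent.H27.LV.deg
      exact (Nat.castAddMonoidHom ℤ).map_finsum hfp
    rw [h6]
    have h7 : ∑ᶠ v : DV k K, ((poleOrder v fun j => P j / P i : ℕ) : ℤ) =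
        ∑ᶠ v : DV k K, (v.ord (P i) - mo v P) := finsum_congr hpo
    rw [h7, finsum_sub_distrib (hso _) (hsup κ P), (hpf _).2]
    unfold hgt
    ring
  intro κ _ P
  refine ⟨hfin κ P, ?_, ?_, ?_, hdeg κ P, ?_, ?_, ?_⟩
  · by_cases hP : P = 0
    · have h0 : ∀ v : DV k K, mo v P = 0 := fun v => (hMO k K v κ P).1 hP
      unfold hgt
      rw [finsum_congr h0, finsum_zero, neg_zero]
    · obtain ⟨i, hi⟩ := Function.ne_iff.1 hP
      rw [hdeg κ P i hi]
      exact Int.natCast_nonneg _
  · intro c hc
    by_cases hP : P = 0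
    · rw [hP, smul_zero]
    · have h1 : ∀ v : DV k K, mo v (c • P) = v.ord c + mo v P := fun v =>
        ((hMO k K v κ P).2 hP).2.2.2.1 c hc
      unfold hgt
      rw [finsum_congr h1, finsum_add_distrib (hso c) (hsup κ P), (hpf c).2, zero_add]
  · intro a
    have h0 : ∀ v : DV k K, mo v (fun i => algebraMap k K (a i)) = 0 := by
      intro v
      by_cases hP : (fun i => algebraMap k K (a i)) = 0
      · exact (hMO k K v κ _).1 hP
      · obtain ⟨_, ⟨i, _, h2⟩, _⟩ := (hMO k K v κ _).2 hP
        rw [← h2, v.ord_base]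
    unfold hgt
    rw [finsum_congr h0, finsum_zero, neg_zero]
  · intro i hi
    have h1 := hdeg κ P i (by rw [hi]; exact one_ne_zero)
    rw [h1]
    congr 2
    funext j
    rw [hi, div_one]
  · intro hP κ' _ Q hQ
    have h1 : ∀ v : DV k K, mo v (fun ij : κ × κ' => P ij.1 * Q ij.2) = mo v P + mo v Q :=
      fun v => ((hMO k K v κ P).2 hP).2.2.2.2 κ' Q hQ
    unfold hgt
    rw [finsum_congr h1, finsum_add_distrib (hsup κ P) (hsup κ' Q)]
    ring
  · intro κ' _ A hA
    have hP : P ≠ 0 := by
      rintro rfl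
      exact hA (Matrix.mulVec_zero _)
    have h1 : ∀ v : DV k K, mo v P ≤ mo v (Matrix.mulVec (A.map (algebraMap k K)) P) := by
      intro v
      obtain ⟨g1, _, _⟩ := (hMO k K v κ P).2 hP
      refine ((hMO k K v κ' _).2 hA).2.2.1 _ fun i => ?_
      unfold Matrix.mulVec dotProduct
      refine ge_sum v _ _ _ fun j _ => ?_
      have := (ge_const v (A i j)).mul (g1 j)
      rw [zero_add] at this
      exact this
    unfold hgt
    rw [neg_le_neg_iff]
    exact finsum_le_finsum' (hsup κ P) (hsup κ' _) h1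

end Pool.Agent.H93.EE
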