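import Pool.Agent.H30.EE.TargetsH
import Pool.Agent.H64.SC.Api
import Pool.Agent.H27.LV.Curve

/-!
# MO: the smallest order of the coordinates
-/

set_option autoImplicit false

open MvPolynomial SC Pool.Agent.H27.LV Pool.Agent.H17.VG Pool.Agent.H30.EE

namespace Pool.Agent.H93.EE

section

variable {k K : Type} [Field k] [Field K] [Algebra k K] {κ : Type}

theorem mo_zero (v : DV k K) : mo v (0 : κ → K) = 0 := by
  have h : {a : ℤ | ∃ i, (0 : κ → K) i ≠ 0 ∧ v.ord ((0 : κ → K) i) = a} = ∅ := by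
    ext a
    simp
  unfold mo
  rw [h, Int.csInf_empty]

theorem mo_eq {v : DV k K} {P : κ → K} {m : ℤ} (h1 : ∀ i, ge v m (P i))
    (h2 : ∃ i, P i ≠ 0 ∧ v.ord (P i) = m) : mo v P = m := by
  refine IsLeast.csInf_eq ⟨h2, ?_⟩
  rintro a ⟨i, hi, rfl⟩
  exact (h1 i).resolve_left hi

theorem mo_spec [Finite κ] (v : DV k K) {P : κ → K} (hP : P ≠ 0) :
    (∀ i, ge v (mo v P) (P i)) ∧ ∃ i, P i ≠ 0 ∧ v.ord (P i) = mo v P := by
  have hfin : {a : ℤ | ∃ i, P i ≠ 0 ∧ v.ord (P i) = a}.Finite := by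
    refine (Set.finite_range fun i => v.ord (P i)).subset ?_
    rintro a ⟨i, _, rfl⟩
    exact ⟨i, rfl⟩
  have hne : {a : ℤ | ∃ i, P i ≠ 0 ∧ v.ord (P i) = a}.Nonempty := by
    obtain ⟨i, hi⟩ := Function.ne_iff.1 hP
    exact ⟨_, i, hi, rfl⟩
  constructor
  · intro i
    by_cases hi : P i = 0
    · exact Or.inl hi
    · exact Or.inr (csInf_le hfin.bddBelow ⟨i, hi, rfl⟩)
  · exact Int.csInf_mem hne hfin.bddBelow

end

theorem pf_MO : T_MO := by
  intro k K _ _ _ v κ _ P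
  constructor
  · rintro rfl
    exact mo_zero v
  · intro hP
    obtain ⟨h1, i, hi, h2⟩ := mo_spec v hP
    refine ⟨h1, ⟨i, hi, h2⟩, ?_, ?_, ?_⟩
    · intro a ha
      have := (ha i).resolve_left hi
      omega
    · intro c hc
      refine mo_eq (fun j => ?_) ⟨i, ?_, ?_⟩
      · rw [Pi.smul_apply, smul_eq_mul]
        exact (ge_of_ord v).mul (h1 j)
      · rw [Pi.smul_apply, smul_eq_mul]
        exact mul_ne_zero hc hi
      · rw [Pi.smul_apply, smul_eq_mul, v.ord_mul' hc hi, h2]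
    · intro κ' _ Q hQ
      obtain ⟨g1, j, hj, g2⟩ := mo_spec v hQ
      refine mo_eq (fun ij => (h1 ij.1).mul (g1 ij.2)) ⟨(i, j), mul_ne_zero hi hj, ?_⟩
      rw [v.ord_mul' hi hj, h2, g2]

end Pool.Agent.H93.EE
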